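import Pool.Agent.Strip051.Box.C2
import Pool.Agent.Strip051.Box.S30
import Pool.Agent.Strip051.LB.Fc.F2

/-! # LINE tight chart ChB03V1_mm_203 -/

namespace Pool.Agent.Strip051.LB.ChB03V1_mm_203

open Pool.Agent.Strip051.Box Pool.Agent.Strip051.Box2

open Pool.Agent.Strip051.LB.Fc Pool.Agent.Strip051.LB.Fc.F2 Pool.Agent.Strip051.LB.Fn Pool.Agent.Strip051.LB.Fn.F2

/-- coordinates of a point of the box -/
def In (b : Bx) (E : Pt) (x1 x2 : ℝ) : Prop :=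
  (S : ℝ) * x1 = ((b.p1 : ℝ) - b.n1) + b.q1 * E.e1 ∧ (S : ℝ) * x2 = ((b.p2 : ℝ) - b.n2) + b.q2 * E.e2

variable {b : Bx} {E : Pt} {x1 x2 : ℝ}

def t0 (b : Bx) : TM := X1 b
noncomputable def v0 (x1 _x2 : ℝ) : ℝ := x1
theorem h0 (h : In b E x1 x2) : Enc S E (t0 b) (v0 x1 x2) := enc_X1 h.1

def t1 (b : Bx) : TM := X2 b
noncomputable def v1 (_x1 x2 : ℝ) : ℝ := x2
theorem h1 (h : In b E x1 x2) : Enc S E (t1 b) (v1 x1 x2) := enc_X2 h.2

def t2 (_b : Bx) : TM := tconst 1859775393 0 1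
noncomputable def v2 (_x1 _x2 : ℝ) : ℝ := Real.sqrt ((3 : ℕ) : ℝ)
theorem h2 (_h : In b E x1 x2) : Enc S E (t2 b) (v2 x1 x2) := enc_sqrtn E (by decide) (by decide)

def t3 (b : Bx) : TM := tscale 1 2 (t2 b)
noncomputable def v3 (x1 x2 : ℝ) : ℝ := ((1 : ℕ) : ℝ) / ((2 : ℕ) : ℝ) * v2 x1 x2
theorem h3 (h : In b E x1 x2) : Enc S E (t3 b) (v3 x1 x2) := enc_scale 1 (by norm_num) (h2 h)

def t4 (b : Bx) : TM := tsq S (t0 b)
noncomputable def v4 (x1 x2 : ℝ) : ℝ := (v0 x1 x2) ^ 2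
theorem h4 (h : In b E x1 x2) : Enc S E (t4 b) (v4 x1 x2) := enc_sq hS (h0 h)

def t5 (_b : Bx) : TM := tconst (Nat.mul 1 S) 0 0
noncomputable def v5 (_x1 _x2 : ℝ) : ℝ := ((1 : ℕ) : ℝ)
theorem h5 (_h : In b E x1 x2) : Enc S E (t5 b) (v5 x1 x2) := enc_nc E 1

def t6 (b : Bx) : TM := tsub (t5 b) (t4 b)
noncomputable def v6 (x1 x2 : ℝ) : ℝ := v5 x1 x2 - v4 x1 x2
theorem h6 (h : In b E x1 x2) : Enc S E (t6 b) (v6 x1 x2) := enc_sub (h5 h) (h4 h)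

def t7 (b : Bx) : TM := tsqrt S (t6 b)
noncomputable def v7 (x1 x2 : ℝ) : ℝ := Real.sqrt (v6 x1 x2)
theorem h7 (h : In b E x1 x2) : Enc S E (t7 b) (v7 x1 x2) := enc_sqrt hS (h6 h)

def t9 (_b : Bx) : TM := tconst (Nat.div (Nat.mul 1 S) 2) 0 1
noncomputable def v9 (_x1 _x2 : ℝ) : ℝ := ((1 : ℕ) : ℝ) / ((2 : ℕ) : ℝ)
theorem h9 (_h : In b E x1 x2) : Enc S E (t9 b) (v9 x1 x2) := enc_rat E 1 (by norm_num)

def t10 (b : Bx) : TM := tscale 1 2 (t0 b)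
noncomputable def v10 (x1 x2 : ℝ) : ℝ := ((1 : ℕ) : ℝ) / ((2 : ℕ) : ℝ) * v0 x1 x2
theorem h10 (h : In b E x1 x2) : Enc S E (t10 b) (v10 x1 x2) := enc_scale 1 (by norm_num) (h0 h)

def t11 (b : Bx) : TM := tmul S (t7 b) (t3 b)
noncomputable def v11 (x1 x2 : ℝ) : ℝ := v7 x1 x2 * v3 x1 x2
theorem h11 (h : In b E x1 x2) : Enc S E (t11 b) (v11 x1 x2) := enc_mul hS (h7 h) (h3 h)

def t13 (b : Bx) : TM := tscale 1 2 (t7 b)
noncomputable def v13 (x1 x2 : ℝ) : ℝ := ((1 : ℕ) : ℝ) / ((2 : ℕ) : ℝ) * v7 x1 x2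
theorem h13 (h : In b E x1 x2) : Enc S E (t13 b) (v13 x1 x2) := enc_scale 1 (by norm_num) (h7 h)

def t14 (b : Bx) : TM := tmul S (t0 b) (t3 b)
noncomputable def v14 (x1 x2 : ℝ) : ℝ := v0 x1 x2 * v3 x1 x2
theorem h14 (h : In b E x1 x2) : Enc S E (t14 b) (v14 x1 x2) := enc_mul hS (h0 h) (h3 h)

def t16 (b : Bx) : TM := tsub (t14 b) (t13 b)
noncomputable def v16 (x1 x2 : ℝ) : ℝ := v14 x1 x2 - v13 x1 x2
theorem h16 (h : In b E x1 x2) : Enc S E (t16 b) (v16 x1 x2) := enc_sub (h14 h) (h13 h)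

def t17 (b : Bx) : TM := tadd (t11 b) (t10 b)
noncomputable def v17 (x1 x2 : ℝ) : ℝ := v11 x1 x2 + v10 x1 x2
theorem h17 (h : In b E x1 x2) : Enc S E (t17 b) (v17 x1 x2) := enc_add (h11 h) (h10 h)

def t18 (b : Bx) : TM := tmul S (t16 b) (t2 b)
noncomputable def v18 (x1 x2 : ℝ) : ℝ := v16 x1 x2 * v2 x1 x2
theorem h18 (h : In b E x1 x2) : Enc S E (t18 b) (v18 x1 x2) := enc_mul hS (h16 h) (h2 h)

def t19 (b : Bx) : TM := tmul S (t17 b) (t2 b)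
noncomputable def v19 (x1 x2 : ℝ) : ℝ := v17 x1 x2 * v2 x1 x2
theorem h19 (h : In b E x1 x2) : Enc S E (t19 b) (v19 x1 x2) := enc_mul hS (h17 h) (h2 h)

def t20 (b : Bx) : TM := tsub (t1 b) (t18 b)
noncomputable def v20 (x1 x2 : ℝ) : ℝ := v1 x1 x2 - v18 x1 x2
theorem h20 (h : In b E x1 x2) : Enc S E (t20 b) (v20 x1 x2) := enc_sub (h1 h) (h18 h)

def t21 (b : Bx) : TM := tsq S (t1 b)
noncomputable def v21 (x1 x2 : ℝ) : ℝ := (v1 x1 x2) ^ 2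
theorem h21 (h : In b E x1 x2) : Enc S E (t21 b) (v21 x1 x2) := enc_sq hS (h1 h)

def t22 (_b : Bx) : TM := tconst (Nat.mul 3 S) 0 0
noncomputable def v22 (_x1 _x2 : ℝ) : ℝ := ((3 : ℕ) : ℝ)
theorem h22 (_h : In b E x1 x2) : Enc S E (t22 b) (v22 x1 x2) := enc_nc E 3

def t23 (b : Bx) : TM := tsub (t22 b) (t21 b)
noncomputable def v23 (x1 x2 : ℝ) : ℝ := v22 x1 x2 - v21 x1 x2
theorem h23 (h : In b E x1 x2) : Enc S E (t23 b) (v23 x1 x2) := enc_sub (h22 h) (h21 h)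

def t24 (b : Bx) : TM := tsqrt S (t23 b)
noncomputable def v24 (x1 x2 : ℝ) : ℝ := Real.sqrt (v23 x1 x2)
theorem h24 (h : In b E x1 x2) : Enc S E (t24 b) (v24 x1 x2) := enc_sqrt hS (h23 h)

def t25 (b : Bx) : TM := tsub (t1 b) (t0 b)
noncomputable def v25 (x1 x2 : ℝ) : ℝ := v1 x1 x2 - v0 x1 x2
theorem h25 (h : In b E x1 x2) : Enc S E (t25 b) (v25 x1 x2) := enc_sub (h1 h) (h0 h)

def t26 (b : Bx) : TM := tsub (t24 b) (t7 b)
noncomputable def v26 (x1 x2 : ℝ) : ℝ := v24 x1 x2 - v7 x1 x2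
theorem h26 (h : In b E x1 x2) : Enc S E (t26 b) (v26 x1 x2) := enc_sub (h24 h) (h7 h)

def t27 (b : Bx) : TM := tsub (t18 b) (t1 b)
noncomputable def v27 (x1 x2 : ℝ) : ℝ := v18 x1 x2 - v1 x1 x2
theorem h27 (h : In b E x1 x2) : Enc S E (t27 b) (v27 x1 x2) := enc_sub (h18 h) (h1 h)

def t30 (b : Bx) : TM := tmul S (t2 b) (t1 b)
noncomputable def v30 (x1 x2 : ℝ) : ℝ := v2 x1 x2 * v1 x1 x2
theorem h30 (h : In b E x1 x2) : Enc S E (t30 b) (v30 x1 x2) := enc_mul hS (h2 h) (h1 h)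

def t31 (b : Bx) : TM := tneg (t30 b)
noncomputable def v31 (x1 x2 : ℝ) : ℝ := -(v30 x1 x2)
theorem h31 (h : In b E x1 x2) : Enc S E (t31 b) (v31 x1 x2) := enc_neg (h30 h)

def t32 (b : Bx) : TM := tsub (t31 b) (t24 b)
noncomputable def v32 (x1 x2 : ℝ) : ℝ := v31 x1 x2 - v24 x1 x2
theorem h32 (h : In b E x1 x2) : Enc S E (t32 b) (v32 x1 x2) := enc_sub (h31 h) (h24 h)

def t33 (b : Bx) : TM := tsub (t22 b) (t1 b)
noncomputable def v33 (x1 x2 : ℝ) : ℝ := v22 x1 x2 - v1 x1 x2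
theorem h33 (h : In b E x1 x2) : Enc S E (t33 b) (v33 x1 x2) := enc_sub (h22 h) (h1 h)

def t34 (b : Bx) : TM := tmul S (t2 b) (t24 b)
noncomputable def v34 (x1 x2 : ℝ) : ℝ := v2 x1 x2 * v24 x1 x2
theorem h34 (h : In b E x1 x2) : Enc S E (t34 b) (v34 x1 x2) := enc_mul hS (h2 h) (h24 h)

def t35 (b : Bx) : TM := tsub (t33 b) (t34 b)
noncomputable def v35 (x1 x2 : ℝ) : ℝ := v33 x1 x2 - v34 x1 x2
theorem h35 (h : In b E x1 x2) : Enc S E (t35 b) (v35 x1 x2) := enc_sub (h33 h) (h34 h)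

def t36 (b : Bx) : TM := tmul S (t32 b) (t35 b)
noncomputable def v36 (x1 x2 : ℝ) : ℝ := v32 x1 x2 * v35 x1 x2
theorem h36 (h : In b E x1 x2) : Enc S E (t36 b) (v36 x1 x2) := enc_mul hS (h32 h) (h35 h)

def t37 (b : Bx) : TM := tsub (t24 b) (t3 b)
noncomputable def v37 (x1 x2 : ℝ) : ℝ := v24 x1 x2 - v3 x1 x2
theorem h37 (h : In b E x1 x2) : Enc S E (t37 b) (v37 x1 x2) := enc_sub (h24 h) (h3 h)

def t38 (b : Bx) : TM := tnat 4 (t37 b)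
noncomputable def v38 (x1 x2 : ℝ) : ℝ := ((4 : ℕ) : ℝ) * v37 x1 x2
theorem h38 (h : In b E x1 x2) : Enc S E (t38 b) (v38 x1 x2) := enc_nat 4 (h37 h)

def t39 (b : Bx) : TM := tinv S (t38 b)
noncomputable def v39 (x1 x2 : ℝ) : ℝ := (v38 x1 x2)⁻¹
theorem h39 (h : In b E x1 x2) : Enc S E (t39 b) (v39 x1 x2) := enc_inv hS (h38 h)

def t40 (b : Bx) : TM := tmul S (t36 b) (t39 b)
noncomputable def v40 (x1 x2 : ℝ) : ℝ := v36 x1 x2 * v39 x1 x2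
theorem h40 (h : In b E x1 x2) : Enc S E (t40 b) (v40 x1 x2) := enc_mul hS (h36 h) (h39 h)

def t42 (b : Bx) : TM := tsq S (t25 b)
noncomputable def v42 (x1 x2 : ℝ) : ℝ := (v25 x1 x2) ^ 2
theorem h42 (h : In b E x1 x2) : Enc S E (t42 b) (v42 x1 x2) := enc_sq hS (h25 h)

def t43 (b : Bx) : TM := tsq S (t26 b)
noncomputable def v43 (x1 x2 : ℝ) : ℝ := (v26 x1 x2) ^ 2
theorem h43 (h : In b E x1 x2) : Enc S E (t43 b) (v43 x1 x2) := enc_sq hS (h26 h)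

def t44 (b : Bx) : TM := tadd (t42 b) (t43 b)
noncomputable def v44 (x1 x2 : ℝ) : ℝ := v42 x1 x2 + v43 x1 x2
theorem h44 (h : In b E x1 x2) : Enc S E (t44 b) (v44 x1 x2) := enc_add (h42 h) (h43 h)

def t48 (b : Bx) : TM := tsub (t18 b) (t0 b)
noncomputable def v48 (x1 x2 : ℝ) : ℝ := v18 x1 x2 - v0 x1 x2
theorem h48 (h : In b E x1 x2) : Enc S E (t48 b) (v48 x1 x2) := enc_sub (h18 h) (h0 h)

def t50 (b : Bx) : TM := tadd (t25 b) (t48 b)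
noncomputable def v50 (x1 x2 : ℝ) : ℝ := v25 x1 x2 + v48 x1 x2
theorem h50 (h : In b E x1 x2) : Enc S E (t50 b) (v50 x1 x2) := enc_add (h25 h) (h48 h)

def t53 (b : Bx) : TM := tadd (t1 b) (t18 b)
noncomputable def v53 (x1 x2 : ℝ) : ℝ := v1 x1 x2 + v18 x1 x2
theorem h53 (h : In b E x1 x2) : Enc S E (t53 b) (v53 x1 x2) := enc_add (h1 h) (h18 h)

def t56 (b : Bx) : TM := tadd (t24 b) (t19 b)
noncomputable def v56 (x1 x2 : ℝ) : ℝ := v24 x1 x2 + v19 x1 x2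
theorem h56 (h : In b E x1 x2) : Enc S E (t56 b) (v56 x1 x2) := enc_add (h24 h) (h19 h)

def t57 (b : Bx) : TM := tinv S (t56 b)
noncomputable def v57 (x1 x2 : ℝ) : ℝ := (v56 x1 x2)⁻¹
theorem h57 (h : In b E x1 x2) : Enc S E (t57 b) (v57 x1 x2) := enc_inv hS (h56 h)

def t58 (b : Bx) : TM := tmul S (t53 b) (t57 b)
noncomputable def v58 (x1 x2 : ℝ) : ℝ := v53 x1 x2 * v57 x1 x2
theorem h58 (h : In b E x1 x2) : Enc S E (t58 b) (v58 x1 x2) := enc_mul hS (h53 h) (h57 h)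

def t59 (b : Bx) : TM := tsub (t19 b) (t7 b)
noncomputable def v59 (x1 x2 : ℝ) : ℝ := v19 x1 x2 - v7 x1 x2
theorem h59 (h : In b E x1 x2) : Enc S E (t59 b) (v59 x1 x2) := enc_sub (h19 h) (h7 h)

def t61 (b : Bx) : TM := tadd (t26 b) (t59 b)
noncomputable def v61 (x1 x2 : ℝ) : ℝ := v26 x1 x2 + v59 x1 x2
theorem h61 (h : In b E x1 x2) : Enc S E (t61 b) (v61 x1 x2) := enc_add (h26 h) (h59 h)

def t62 (b : Bx) : TM := tmul S (t58 b) (t61 b)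
noncomputable def v62 (x1 x2 : ℝ) : ℝ := v58 x1 x2 * v61 x1 x2
theorem h62 (h : In b E x1 x2) : Enc S E (t62 b) (v62 x1 x2) := enc_mul hS (h58 h) (h61 h)

def t64 (b : Bx) : TM := tsub (t62 b) (t50 b)
noncomputable def v64 (x1 x2 : ℝ) : ℝ := v62 x1 x2 - v50 x1 x2
theorem h64 (h : In b E x1 x2) : Enc S E (t64 b) (v64 x1 x2) := enc_sub (h62 h) (h50 h)

def t66 (b : Bx) : TM := tsub (t0 b) (t1 b)
noncomputable def v66 (x1 x2 : ℝ) : ℝ := v0 x1 x2 - v1 x1 x2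
theorem h66 (h : In b E x1 x2) : Enc S E (t66 b) (v66 x1 x2) := enc_sub (h0 h) (h1 h)

def t67 (b : Bx) : TM := tsub (t5 b) (t43 b)
noncomputable def v67 (x1 x2 : ℝ) : ℝ := v5 x1 x2 - v43 x1 x2
theorem h67 (h : In b E x1 x2) : Enc S E (t67 b) (v67 x1 x2) := enc_sub (h5 h) (h43 h)

def t68 (b : Bx) : TM := tsqrt S (t67 b)
noncomputable def v68 (x1 x2 : ℝ) : ℝ := Real.sqrt (v67 x1 x2)
theorem h68 (h : In b E x1 x2) : Enc S E (t68 b) (v68 x1 x2) := enc_sqrt hS (h67 h)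

def t69 (b : Bx) : TM := tsub (t11 b) (t10 b)
noncomputable def v69 (x1 x2 : ℝ) : ℝ := v11 x1 x2 - v10 x1 x2
theorem h69 (h : In b E x1 x2) : Enc S E (t69 b) (v69 x1 x2) := enc_sub (h11 h) (h10 h)

def t70 (b : Bx) : TM := tmul S (t2 b) (t26 b)
noncomputable def v70 (x1 x2 : ℝ) : ℝ := v2 x1 x2 * v26 x1 x2
theorem h70 (h : In b E x1 x2) : Enc S E (t70 b) (v70 x1 x2) := enc_mul hS (h2 h) (h26 h)

def t71 (b : Bx) : TM := tsub (t68 b) (t70 b)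
noncomputable def v71 (x1 x2 : ℝ) : ℝ := v68 x1 x2 - v70 x1 x2
theorem h71 (h : In b E x1 x2) : Enc S E (t71 b) (v71 x1 x2) := enc_sub (h68 h) (h70 h)

def t72 (b : Bx) : TM := tadd (t5 b) (t68 b)
noncomputable def v72 (x1 x2 : ℝ) : ℝ := v5 x1 x2 + v68 x1 x2
theorem h72 (h : In b E x1 x2) : Enc S E (t72 b) (v72 x1 x2) := enc_add (h5 h) (h68 h)

def t73 (b : Bx) : TM := tmul S (t71 b) (t72 b)
noncomputable def v73 (x1 x2 : ℝ) : ℝ := v71 x1 x2 * v72 x1 x2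
theorem h73 (h : In b E x1 x2) : Enc S E (t73 b) (v73 x1 x2) := enc_mul hS (h71 h) (h72 h)

def t74 (b : Bx) : TM := tsub (t72 b) (t70 b)
noncomputable def v74 (x1 x2 : ℝ) : ℝ := v72 x1 x2 - v70 x1 x2
theorem h74 (h : In b E x1 x2) : Enc S E (t74 b) (v74 x1 x2) := enc_sub (h72 h) (h70 h)

def t75 (b : Bx) : TM := tinv S (t74 b)
noncomputable def v75 (x1 x2 : ℝ) : ℝ := (v74 x1 x2)⁻¹
theorem h75 (h : In b E x1 x2) : Enc S E (t75 b) (v75 x1 x2) := enc_inv hS (h74 h)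

def t76 (b : Bx) : TM := tmul S (t73 b) (t75 b)
noncomputable def v76 (x1 x2 : ℝ) : ℝ := v73 x1 x2 * v75 x1 x2
theorem h76 (h : In b E x1 x2) : Enc S E (t76 b) (v76 x1 x2) := enc_mul hS (h73 h) (h75 h)

def t79 (b : Bx) : TM := tadd (t68 b) (t69 b)
noncomputable def v79 (x1 x2 : ℝ) : ℝ := v68 x1 x2 + v69 x1 x2
theorem h79 (h : In b E x1 x2) : Enc S E (t79 b) (v79 x1 x2) := enc_add (h68 h) (h69 h)

def t80 (b : Bx) : TM := tinv S (t79 b)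
noncomputable def v80 (x1 x2 : ℝ) : ℝ := (v79 x1 x2)⁻¹
theorem h80 (h : In b E x1 x2) : Enc S E (t80 b) (v80 x1 x2) := enc_inv hS (h79 h)

def t81 (b : Bx) : TM := tmul S (t62 b) (t80 b)
noncomputable def v81 (x1 x2 : ℝ) : ℝ := v62 x1 x2 * v80 x1 x2
theorem h81 (h : In b E x1 x2) : Enc S E (t81 b) (v81 x1 x2) := enc_mul hS (h62 h) (h80 h)

def t82 (b : Bx) : TM := tneg (t81 b)
noncomputable def v82 (x1 x2 : ℝ) : ℝ := -(v81 x1 x2)
theorem h82 (h : In b E x1 x2) : Enc S E (t82 b) (v82 x1 x2) := enc_neg (h81 h)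

def t83 (b : Bx) : TM := tmul S (t2 b) (t59 b)
noncomputable def v83 (x1 x2 : ℝ) : ℝ := v2 x1 x2 * v59 x1 x2
theorem h83 (h : In b E x1 x2) : Enc S E (t83 b) (v83 x1 x2) := enc_mul hS (h2 h) (h59 h)

def t84 (b : Bx) : TM := tmul S (t2 b) (t58 b)
noncomputable def v84 (x1 x2 : ℝ) : ℝ := v2 x1 x2 * v58 x1 x2
theorem h84 (h : In b E x1 x2) : Enc S E (t84 b) (v84 x1 x2) := enc_mul hS (h2 h) (h58 h)

def t85 (b : Bx) : TM := tsub (t69 b) (t83 b)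
noncomputable def v85 (x1 x2 : ℝ) : ℝ := v69 x1 x2 - v83 x1 x2
theorem h85 (h : In b E x1 x2) : Enc S E (t85 b) (v85 x1 x2) := enc_sub (h69 h) (h83 h)

def t86 (b : Bx) : TM := tsub (t82 b) (t84 b)
noncomputable def v86 (x1 x2 : ℝ) : ℝ := v82 x1 x2 - v84 x1 x2
theorem h86 (h : In b E x1 x2) : Enc S E (t86 b) (v86 x1 x2) := enc_sub (h82 h) (h84 h)

def t87 (b : Bx) : TM := tadd (t5 b) (t69 b)
noncomputable def v87 (x1 x2 : ℝ) : ℝ := v5 x1 x2 + v69 x1 x2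
theorem h87 (h : In b E x1 x2) : Enc S E (t87 b) (v87 x1 x2) := enc_add (h5 h) (h69 h)

def t88 (b : Bx) : TM := tmul S (t85 b) (t87 b)
noncomputable def v88 (x1 x2 : ℝ) : ℝ := v85 x1 x2 * v87 x1 x2
theorem h88 (h : In b E x1 x2) : Enc S E (t88 b) (v88 x1 x2) := enc_mul hS (h85 h) (h87 h)

def t89 (b : Bx) : TM := tmul S (t86 b) (t72 b)
noncomputable def v89 (x1 x2 : ℝ) : ℝ := v86 x1 x2 * v72 x1 x2
theorem h89 (h : In b E x1 x2) : Enc S E (t89 b) (v89 x1 x2) := enc_mul hS (h86 h) (h72 h)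

def t90 (b : Bx) : TM := tmul S (t85 b) (t81 b)
noncomputable def v90 (x1 x2 : ℝ) : ℝ := v85 x1 x2 * v81 x1 x2
theorem h90 (h : In b E x1 x2) : Enc S E (t90 b) (v90 x1 x2) := enc_mul hS (h85 h) (h81 h)

def t92 (b : Bx) : TM := tsub (t89 b) (t90 b)
noncomputable def v92 (x1 x2 : ℝ) : ℝ := v89 x1 x2 - v90 x1 x2
theorem h92 (h : In b E x1 x2) : Enc S E (t92 b) (v92 x1 x2) := enc_sub (h89 h) (h90 h)

def t93 (b : Bx) : TM := tsub (t87 b) (t83 b)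
noncomputable def v93 (x1 x2 : ℝ) : ℝ := v87 x1 x2 - v83 x1 x2
theorem h93 (h : In b E x1 x2) : Enc S E (t93 b) (v93 x1 x2) := enc_sub (h87 h) (h83 h)

def t94 (b : Bx) : TM := tinv S (t93 b)
noncomputable def v94 (x1 x2 : ℝ) : ℝ := (v93 x1 x2)⁻¹
theorem h94 (h : In b E x1 x2) : Enc S E (t94 b) (v94 x1 x2) := enc_inv hS (h93 h)

def t95 (b : Bx) : TM := tmul S (t75 b) (t94 b)
noncomputable def v95 (x1 x2 : ℝ) : ℝ := v75 x1 x2 * v94 x1 x2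
theorem h95 (h : In b E x1 x2) : Enc S E (t95 b) (v95 x1 x2) := enc_mul hS (h75 h) (h94 h)

def t96 (b : Bx) : TM := tmul S (t86 b) (t95 b)
noncomputable def v96 (x1 x2 : ℝ) : ℝ := v86 x1 x2 * v95 x1 x2
theorem h96 (h : In b E x1 x2) : Enc S E (t96 b) (v96 x1 x2) := enc_mul hS (h86 h) (h95 h)

def t99 (b : Bx) : TM := tmul S (t92 b) (t75 b)
noncomputable def v99 (x1 x2 : ℝ) : ℝ := v92 x1 x2 * v75 x1 x2
theorem h99 (h : In b E x1 x2) : Enc S E (t99 b) (v99 x1 x2) := enc_mul hS (h92 h) (h75 h)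

def t100 (b : Bx) : TM := tmul S (t88 b) (t96 b)
noncomputable def v100 (x1 x2 : ℝ) : ℝ := v88 x1 x2 * v96 x1 x2
theorem h100 (h : In b E x1 x2) : Enc S E (t100 b) (v100 x1 x2) := enc_mul hS (h88 h) (h96 h)

def t102 (b : Bx) : TM := tsub (t99 b) (t100 b)
noncomputable def v102 (x1 x2 : ℝ) : ℝ := v99 x1 x2 - v100 x1 x2
theorem h102 (h : In b E x1 x2) : Enc S E (t102 b) (v102 x1 x2) := enc_sub (h99 h) (h100 h)

def t103 (b : Bx) : TM := kxq0_t (t66 b) (t26 b)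
noncomputable def v103 (x1 x2 : ℝ) : ℝ := kxq0_v (v66 x1 x2) (v26 x1 x2)
theorem h103 (h : In b E x1 x2) : Enc S E (t103 b) (v103 x1 x2) := kxq0_enc (h66 h) (h26 h)

def t104 (b : Bx) : TM := tadd (t66 b) (t68 b)
noncomputable def v104 (x1 x2 : ℝ) : ℝ := v66 x1 x2 + v68 x1 x2
theorem h104 (h : In b E x1 x2) : Enc S E (t104 b) (v104 x1 x2) := enc_add (h66 h) (h68 h)

def t105 (b : Bx) : TM := f2m_t (t26 b)
noncomputable def v105 (x1 x2 : ℝ) : ℝ := f2m_v (v26 x1 x2)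
theorem h105 (h : In b E x1 x2) : Enc S E (t105 b) (v105 x1 x2) := f2m_enc (h26 h)

def t106 (b : Bx) : TM := tsub (t105 b) (t66 b)
noncomputable def v106 (x1 x2 : ℝ) : ℝ := v105 x1 x2 - v66 x1 x2
theorem h106 (h : In b E x1 x2) : Enc S E (t106 b) (v106 x1 x2) := enc_sub (h105 h) (h66 h)

def t107 (b : Bx) : TM := tsub (t66 b) (t68 b)
noncomputable def v107 (x1 x2 : ℝ) : ℝ := v66 x1 x2 - v68 x1 x2
theorem h107 (h : In b E x1 x2) : Enc S E (t107 b) (v107 x1 x2) := enc_sub (h66 h) (h68 h)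

def t108 (b : Bx) : TM := tmul S (t107 b) (t103 b)
noncomputable def v108 (x1 x2 : ℝ) : ℝ := v107 x1 x2 * v103 x1 x2
theorem h108 (h : In b E x1 x2) : Enc S E (t108 b) (v108 x1 x2) := enc_mul hS (h107 h) (h103 h)

def t109 (b : Bx) : TM := tadd (t76 b) (t108 b)
noncomputable def v109 (x1 x2 : ℝ) : ℝ := v76 x1 x2 + v108 x1 x2
theorem h109 (h : In b E x1 x2) : Enc S E (t109 b) (v109 x1 x2) := enc_add (h76 h) (h108 h)

def t112 (b : Bx) : TM := tmul S (t64 b) (t103 b)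
noncomputable def v112 (x1 x2 : ℝ) : ℝ := v64 x1 x2 * v103 x1 x2
theorem h112 (h : In b E x1 x2) : Enc S E (t112 b) (v112 x1 x2) := enc_mul hS (h64 h) (h103 h)

def t113 (b : Bx) : TM := tinv S (t104 b)
noncomputable def v113 (x1 x2 : ℝ) : ℝ := (v104 x1 x2)⁻¹
theorem h113 (h : In b E x1 x2) : Enc S E (t113 b) (v113 x1 x2) := enc_inv hS (h104 h)

def t114 (b : Bx) : TM := tmul S (t112 b) (t113 b)
noncomputable def v114 (x1 x2 : ℝ) : ℝ := v112 x1 x2 * v113 x1 x2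
theorem h114 (h : In b E x1 x2) : Enc S E (t114 b) (v114 x1 x2) := enc_mul hS (h112 h) (h113 h)

def t115 (b : Bx) : TM := tadd (t102 b) (t114 b)
noncomputable def v115 (x1 x2 : ℝ) : ℝ := v102 x1 x2 + v114 x1 x2
theorem h115 (h : In b E x1 x2) : Enc S E (t115 b) (v115 x1 x2) := enc_add (h102 h) (h114 h)

def t117 (b : Bx) : TM := tmul S (t0 b) (t24 b)
noncomputable def v117 (x1 x2 : ℝ) : ℝ := v0 x1 x2 * v24 x1 x2
theorem h117 (h : In b E x1 x2) : Enc S E (t117 b) (v117 x1 x2) := enc_mul hS (h0 h) (h24 h)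

def t118 (b : Bx) : TM := tmul S (t1 b) (t7 b)
noncomputable def v118 (x1 x2 : ℝ) : ℝ := v1 x1 x2 * v7 x1 x2
theorem h118 (h : In b E x1 x2) : Enc S E (t118 b) (v118 x1 x2) := enc_mul hS (h1 h) (h7 h)

def t119 (b : Bx) : TM := tsub (t117 b) (t118 b)
noncomputable def v119 (x1 x2 : ℝ) : ℝ := v117 x1 x2 - v118 x1 x2
theorem h119 (h : In b E x1 x2) : Enc S E (t119 b) (v119 x1 x2) := enc_sub (h117 h) (h118 h)

def t120 (b : Bx) : TM := tinv S (t2 b)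
noncomputable def v120 (x1 x2 : ℝ) : ℝ := (v2 x1 x2)⁻¹
theorem h120 (h : In b E x1 x2) : Enc S E (t120 b) (v120 x1 x2) := enc_inv hS (h2 h)

def t121 (b : Bx) : TM := tmul S (t119 b) (t120 b)
noncomputable def v121 (x1 x2 : ℝ) : ℝ := v119 x1 x2 * v120 x1 x2
theorem h121 (h : In b E x1 x2) : Enc S E (t121 b) (v121 x1 x2) := enc_mul hS (h119 h) (h120 h)

def t122 (b : Bx) : TM := tsub (t121 b) (t9 b)
noncomputable def v122 (x1 x2 : ℝ) : ℝ := v121 x1 x2 - v9 x1 x2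
theorem h122 (h : In b E x1 x2) : Enc S E (t122 b) (v122 x1 x2) := enc_sub (h121 h) (h9 h)

def t124 (b : Bx) : TM := tmul S (t0 b) (t58 b)
noncomputable def v124 (x1 x2 : ℝ) : ℝ := v0 x1 x2 * v58 x1 x2
theorem h124 (h : In b E x1 x2) : Enc S E (t124 b) (v124 x1 x2) := enc_mul hS (h0 h) (h58 h)

def t128 (b : Bx) : TM := tadd (t124 b) (t7 b)
noncomputable def v128 (x1 x2 : ℝ) : ℝ := v124 x1 x2 + v7 x1 x2
theorem h128 (h : In b E x1 x2) : Enc S E (t128 b) (v128 x1 x2) := enc_add (h124 h) (h7 h)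

def t130 (b : Bx) : TM := tmul S (t128 b) (t120 b)
noncomputable def v130 (x1 x2 : ℝ) : ℝ := v128 x1 x2 * v120 x1 x2
theorem h130 (h : In b E x1 x2) : Enc S E (t130 b) (v130 x1 x2) := enc_mul hS (h128 h) (h120 h)

def t132 (b : Bx) : TM := tsub (t7 b) (t3 b)
noncomputable def v132 (x1 x2 : ℝ) : ℝ := v7 x1 x2 - v3 x1 x2
theorem h132 (h : In b E x1 x2) : Enc S E (t132 b) (v132 x1 x2) := enc_sub (h7 h) (h3 h)

def t145 (b : Bx) : TM := tmul S (t132 b) (t115 b)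
noncomputable def v145 (x1 x2 : ℝ) : ℝ := v132 x1 x2 * v115 x1 x2
theorem h145 (h : In b E x1 x2) : Enc S E (t145 b) (v145 x1 x2) := enc_mul hS (h132 h) (h115 h)

def t146 (b : Bx) : TM := tneg (t145 b)
noncomputable def v146 (x1 x2 : ℝ) : ℝ := -(v145 x1 x2)
theorem h146 (h : In b E x1 x2) : Enc S E (t146 b) (v146 x1 x2) := enc_neg (h145 h)

def t147 (b : Bx) : TM := tmul S (t58 b) (t0 b)
noncomputable def v147 (x1 x2 : ℝ) : ℝ := v58 x1 x2 * v0 x1 x2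
theorem h147 (h : In b E x1 x2) : Enc S E (t147 b) (v147 x1 x2) := enc_mul hS (h58 h) (h0 h)

def t148 (b : Bx) : TM := tsub (t146 b) (t147 b)
noncomputable def v148 (x1 x2 : ℝ) : ℝ := v146 x1 x2 - v147 x1 x2
theorem h148 (h : In b E x1 x2) : Enc S E (t148 b) (v148 x1 x2) := enc_sub (h146 h) (h147 h)

def t149 (b : Bx) : TM := tmul S (t2 b) (t18 b)
noncomputable def v149 (x1 x2 : ℝ) : ℝ := v2 x1 x2 * v18 x1 x2
theorem h149 (h : In b E x1 x2) : Enc S E (t149 b) (v149 x1 x2) := enc_mul hS (h2 h) (h18 h)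

def t151 (b : Bx) : TM := tneg (t149 b)
noncomputable def v151 (x1 x2 : ℝ) : ℝ := -(v149 x1 x2)
theorem h151 (h : In b E x1 x2) : Enc S E (t151 b) (v151 x1 x2) := enc_neg (h149 h)

def t152 (b : Bx) : TM := tsub (t151 b) (t19 b)
noncomputable def v152 (x1 x2 : ℝ) : ℝ := v151 x1 x2 - v19 x1 x2
theorem h152 (h : In b E x1 x2) : Enc S E (t152 b) (v152 x1 x2) := enc_sub (h151 h) (h19 h)

def t153 (b : Bx) : TM := tsub (t2 b) (t58 b)
noncomputable def v153 (x1 x2 : ℝ) : ℝ := v2 x1 x2 - v58 x1 x2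
theorem h153 (h : In b E x1 x2) : Enc S E (t153 b) (v153 x1 x2) := enc_sub (h2 h) (h58 h)

def t154 (b : Bx) : TM := tsub (t22 b) (t18 b)
noncomputable def v154 (x1 x2 : ℝ) : ℝ := v22 x1 x2 - v18 x1 x2
theorem h154 (h : In b E x1 x2) : Enc S E (t154 b) (v154 x1 x2) := enc_sub (h22 h) (h18 h)

def t155 (b : Bx) : TM := tmul S (t2 b) (t19 b)
noncomputable def v155 (x1 x2 : ℝ) : ℝ := v2 x1 x2 * v19 x1 x2
theorem h155 (h : In b E x1 x2) : Enc S E (t155 b) (v155 x1 x2) := enc_mul hS (h2 h) (h19 h)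

def t156 (b : Bx) : TM := tsub (t154 b) (t155 b)
noncomputable def v156 (x1 x2 : ℝ) : ℝ := v154 x1 x2 - v155 x1 x2
theorem h156 (h : In b E x1 x2) : Enc S E (t156 b) (v156 x1 x2) := enc_sub (h154 h) (h155 h)

def t157 (b : Bx) : TM := tsub (t5 b) (t84 b)
noncomputable def v157 (x1 x2 : ℝ) : ℝ := v5 x1 x2 - v84 x1 x2
theorem h157 (h : In b E x1 x2) : Enc S E (t157 b) (v157 x1 x2) := enc_sub (h5 h) (h84 h)

def t158 (b : Bx) : TM := tmul S (t152 b) (t156 b)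
noncomputable def v158 (x1 x2 : ℝ) : ℝ := v152 x1 x2 * v156 x1 x2
theorem h158 (h : In b E x1 x2) : Enc S E (t158 b) (v158 x1 x2) := enc_mul hS (h152 h) (h156 h)

def t159 (b : Bx) : TM := tmul S (t153 b) (t35 b)
noncomputable def v159 (x1 x2 : ℝ) : ℝ := v153 x1 x2 * v35 x1 x2
theorem h159 (h : In b E x1 x2) : Enc S E (t159 b) (v159 x1 x2) := enc_mul hS (h153 h) (h35 h)

def t160 (b : Bx) : TM := tmul S (t152 b) (t157 b)
noncomputable def v160 (x1 x2 : ℝ) : ℝ := v152 x1 x2 * v157 x1 x2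
theorem h160 (h : In b E x1 x2) : Enc S E (t160 b) (v160 x1 x2) := enc_mul hS (h152 h) (h157 h)

def t161 (b : Bx) : TM := tadd (t159 b) (t160 b)
noncomputable def v161 (x1 x2 : ℝ) : ℝ := v159 x1 x2 + v160 x1 x2
theorem h161 (h : In b E x1 x2) : Enc S E (t161 b) (v161 x1 x2) := enc_add (h159 h) (h160 h)

def t162 (b : Bx) : TM := tsub (t19 b) (t3 b)
noncomputable def v162 (x1 x2 : ℝ) : ℝ := v19 x1 x2 - v3 x1 x2
theorem h162 (h : In b E x1 x2) : Enc S E (t162 b) (v162 x1 x2) := enc_sub (h19 h) (h3 h)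

def t163 (b : Bx) : TM := tnat 4 (t162 b)
noncomputable def v163 (x1 x2 : ℝ) : ℝ := ((4 : ℕ) : ℝ) * v162 x1 x2
theorem h163 (h : In b E x1 x2) : Enc S E (t163 b) (v163 x1 x2) := enc_nat 4 (h162 h)

def t164 (b : Bx) : TM := tnat 4 (t58 b)
noncomputable def v164 (x1 x2 : ℝ) : ℝ := ((4 : ℕ) : ℝ) * v58 x1 x2
theorem h164 (h : In b E x1 x2) : Enc S E (t164 b) (v164 x1 x2) := enc_nat 4 (h58 h)

def t165 (b : Bx) : TM := tinv S (t163 b)
noncomputable def v165 (x1 x2 : ℝ) : ℝ := (v163 x1 x2)⁻¹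
theorem h165 (h : In b E x1 x2) : Enc S E (t165 b) (v165 x1 x2) := enc_inv hS (h163 h)

def t166 (b : Bx) : TM := tmul S (t39 b) (t165 b)
noncomputable def v166 (x1 x2 : ℝ) : ℝ := v39 x1 x2 * v165 x1 x2
theorem h166 (h : In b E x1 x2) : Enc S E (t166 b) (v166 x1 x2) := enc_mul hS (h39 h) (h165 h)

def t167 (b : Bx) : TM := tmul S (t164 b) (t166 b)
noncomputable def v167 (x1 x2 : ℝ) : ℝ := v164 x1 x2 * v166 x1 x2
theorem h167 (h : In b E x1 x2) : Enc S E (t167 b) (v167 x1 x2) := enc_mul hS (h164 h) (h166 h)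

def t170 (b : Bx) : TM := tmul S (t161 b) (t39 b)
noncomputable def v170 (x1 x2 : ℝ) : ℝ := v161 x1 x2 * v39 x1 x2
theorem h170 (h : In b E x1 x2) : Enc S E (t170 b) (v170 x1 x2) := enc_mul hS (h161 h) (h39 h)

def t171 (b : Bx) : TM := tmul S (t158 b) (t167 b)
noncomputable def v171 (x1 x2 : ℝ) : ℝ := v158 x1 x2 * v167 x1 x2
theorem h171 (h : In b E x1 x2) : Enc S E (t171 b) (v171 x1 x2) := enc_mul hS (h158 h) (h167 h)

def t173 (b : Bx) : TM := tsub (t170 b) (t171 b)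
noncomputable def v173 (x1 x2 : ℝ) : ℝ := v170 x1 x2 - v171 x1 x2
theorem h173 (h : In b E x1 x2) : Enc S E (t173 b) (v173 x1 x2) := enc_sub (h170 h) (h171 h)

def t174 (b : Bx) : TM := tsub (t19 b) (t2 b)
noncomputable def v174 (x1 x2 : ℝ) : ℝ := v19 x1 x2 - v2 x1 x2
theorem h174 (h : In b E x1 x2) : Enc S E (t174 b) (v174 x1 x2) := enc_sub (h19 h) (h2 h)

def t175 (b : Bx) : TM := tmul S (t58 b) (t109 b)
noncomputable def v175 (x1 x2 : ℝ) : ℝ := v58 x1 x2 * v109 x1 x2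
theorem h175 (h : In b E x1 x2) : Enc S E (t175 b) (v175 x1 x2) := enc_mul hS (h58 h) (h109 h)

def t176 (b : Bx) : TM := tneg (t175 b)
noncomputable def v176 (x1 x2 : ℝ) : ℝ := -(v175 x1 x2)
theorem h176 (h : In b E x1 x2) : Enc S E (t176 b) (v176 x1 x2) := enc_neg (h175 h)

def t177 (b : Bx) : TM := tmul S (t174 b) (t115 b)
noncomputable def v177 (x1 x2 : ℝ) : ℝ := v174 x1 x2 * v115 x1 x2
theorem h177 (h : In b E x1 x2) : Enc S E (t177 b) (v177 x1 x2) := enc_mul hS (h174 h) (h115 h)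

def t179 (b : Bx) : TM := tsub (t176 b) (t177 b)
noncomputable def v179 (x1 x2 : ℝ) : ℝ := v176 x1 x2 - v177 x1 x2
theorem h179 (h : In b E x1 x2) : Enc S E (t179 b) (v179 x1 x2) := enc_sub (h176 h) (h177 h)

def t180 (b : Bx) : TM := tmul S (t58 b) (t40 b)
noncomputable def v180 (x1 x2 : ℝ) : ℝ := v58 x1 x2 * v40 x1 x2
theorem h180 (h : In b E x1 x2) : Enc S E (t180 b) (v180 x1 x2) := enc_mul hS (h58 h) (h40 h)

def t181 (b : Bx) : TM := tsub (t179 b) (t180 b)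
noncomputable def v181 (x1 x2 : ℝ) : ℝ := v179 x1 x2 - v180 x1 x2
theorem h181 (h : In b E x1 x2) : Enc S E (t181 b) (v181 x1 x2) := enc_sub (h179 h) (h180 h)

def t182 (b : Bx) : TM := tmul S (t59 b) (t173 b)
noncomputable def v182 (x1 x2 : ℝ) : ℝ := v59 x1 x2 * v173 x1 x2
theorem h182 (h : In b E x1 x2) : Enc S E (t182 b) (v182 x1 x2) := enc_mul hS (h59 h) (h173 h)

def t183 (b : Bx) : TM := tsub (t181 b) (t182 b)
noncomputable def v183 (x1 x2 : ℝ) : ℝ := v181 x1 x2 - v182 x1 x2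
theorem h183 (h : In b E x1 x2) : Enc S E (t183 b) (v183 x1 x2) := enc_sub (h181 h) (h182 h)

def t184 (b : Bx) : TM := tmul S (t132 b) (t173 b)
noncomputable def v184 (x1 x2 : ℝ) : ℝ := v132 x1 x2 * v173 x1 x2
theorem h184 (h : In b E x1 x2) : Enc S E (t184 b) (v184 x1 x2) := enc_mul hS (h132 h) (h173 h)

def t185 (b : Bx) : TM := tsub (t184 b) (t147 b)
noncomputable def v185 (x1 x2 : ℝ) : ℝ := v184 x1 x2 - v147 x1 x2
theorem h185 (h : In b E x1 x2) : Enc S E (t185 b) (v185 x1 x2) := enc_sub (h184 h) (h147 h)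

def t186 (b : Bx) : TM := tsub (t2 b) (t24 b)
noncomputable def v186 (x1 x2 : ℝ) : ℝ := v2 x1 x2 - v24 x1 x2
theorem h186 (h : In b E x1 x2) : Enc S E (t186 b) (v186 x1 x2) := enc_sub (h2 h) (h24 h)

def t187 (b : Bx) : TM := qw_t (t132 b) (t26 b) (t186 b) (t130 b) (t148 b) (t183 b) (t185 b)
noncomputable def v187 (x1 x2 : ℝ) : ℝ := qw_v (v132 x1 x2) (v26 x1 x2) (v186 x1 x2) (v130 x1 x2) (v148 x1 x2) (v183 x1 x2) (v185 x1 x2)
theorem h187 (h : In b E x1 x2) : Enc S E (t187 b) (v187 x1 x2) := qw_enc (h132 h) (h26 h) (h186 h) (h130 h) (h148 h) (h183 h) (h185 h)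

def t188 (b : Bx) : TM := tsub (t3 b) (t7 b)
noncomputable def v188 (x1 x2 : ℝ) : ℝ := v3 x1 x2 - v7 x1 x2
theorem h188 (h : In b E x1 x2) : Enc S E (t188 b) (v188 x1 x2) := enc_sub (h3 h) (h7 h)

def t189 (b : Bx) : TM := tscale 3 4 (t2 b)
noncomputable def v189 (x1 x2 : ℝ) : ℝ := ((3 : ℕ) : ℝ) / ((4 : ℕ) : ℝ) * v2 x1 x2
theorem h189 (h : In b E x1 x2) : Enc S E (t189 b) (v189 x1 x2) := enc_scale 3 (by norm_num) (h2 h)

def t191 (b : Bx) : TM := tsub (t7 b) (t189 b)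
noncomputable def v191 (x1 x2 : ℝ) : ℝ := v7 x1 x2 - v189 x1 x2
theorem h191 (h : In b E x1 x2) : Enc S E (t191 b) (v191 x1 x2) := enc_sub (h7 h) (h189 h)

def t192 (b : Bx) : TM := tscale 1 4 (t2 b)
noncomputable def v192 (x1 x2 : ℝ) : ℝ := ((1 : ℕ) : ℝ) / ((4 : ℕ) : ℝ) * v2 x1 x2
theorem h192 (h : In b E x1 x2) : Enc S E (t192 b) (v192 x1 x2) := enc_scale 1 (by norm_num) (h2 h)

def t194 (b : Bx) : TM := tsub (t26 b) (t192 b)
noncomputable def v194 (x1 x2 : ℝ) : ℝ := v26 x1 x2 - v192 x1 x2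
theorem h194 (h : In b E x1 x2) : Enc S E (t194 b) (v194 x1 x2) := enc_sub (h26 h) (h192 h)

def t196 (b : Bx) : TM := tsub (t189 b) (t24 b)
noncomputable def v196 (x1 x2 : ℝ) : ℝ := v189 x1 x2 - v24 x1 x2
theorem h196 (h : In b E x1 x2) : Enc S E (t196 b) (v196 x1 x2) := enc_sub (h189 h) (h24 h)

def t197 (_b : Bx) : TM := tconst (Nat.div (Nat.mul 1 S) 16) 0 1
noncomputable def v197 (_x1 _x2 : ℝ) : ℝ := ((1 : ℕ) : ℝ) / ((16 : ℕ) : ℝ)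
theorem h197 (_h : In b E x1 x2) : Enc S E (t197 b) (v197 x1 x2) := enc_rat E 1 (by norm_num)

def t198 (b : Bx) : TM := tsub (t27 b) (t197 b)
noncomputable def v198 (x1 x2 : ℝ) : ℝ := v27 x1 x2 - v197 x1 x2
theorem h198 (h : In b E x1 x2) : Enc S E (t198 b) (v198 x1 x2) := enc_sub (h27 h) (h197 h)

def t199 (b : Bx) : TM := tsub (t20 b) (t197 b)
noncomputable def v199 (x1 x2 : ℝ) : ℝ := v20 x1 x2 - v197 x1 x2
theorem h199 (h : In b E x1 x2) : Enc S E (t199 b) (v199 x1 x2) := enc_sub (h20 h) (h197 h)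

def t200 (b : Bx) : TM := tsub (t7 b) (t24 b)
noncomputable def v200 (x1 x2 : ℝ) : ℝ := v7 x1 x2 - v24 x1 x2
theorem h200 (h : In b E x1 x2) : Enc S E (t200 b) (v200 x1 x2) := enc_sub (h7 h) (h24 h)

def t201 (b : Bx) : TM := tsub (t5 b) (t44 b)
noncomputable def v201 (x1 x2 : ℝ) : ℝ := v5 x1 x2 - v44 x1 x2
theorem h201 (h : In b E x1 x2) : Enc S E (t201 b) (v201 x1 x2) := enc_sub (h5 h) (h44 h)

def t202 (b : Bx) : TM := tadd (t122 b) (t9 b)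
noncomputable def v202 (x1 x2 : ℝ) : ℝ := v122 x1 x2 + v9 x1 x2
theorem h202 (h : In b E x1 x2) : Enc S E (t202 b) (v202 x1 x2) := enc_add (h122 h) (h9 h)

def t203 (b : Bx) : TM := tneg (t202 b)
noncomputable def v203 (x1 x2 : ℝ) : ℝ := -(v202 x1 x2)
theorem h203 (h : In b E x1 x2) : Enc S E (t203 b) (v203 x1 x2) := enc_neg (h202 h)

def g0 (b : Bx) : Bool := and (pos (t64 b)) (and (pos (t23 b)) (and (pos (t56 b)) (and (pos (t67 b)) (and (pos (t79 b)) (and (pos (t74 b)) (and (pos (t93 b)) (and (pos (t104 b)) (and (pos (t106 b)) (and (pos (t38 b)) (and (pos (t163 b)) (or (pos (t20 b)) (pos (t187 b)))))))))))))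

def l0 (b : Bx) : Nat := cond (g0 b) 0 (pickb 1 (t187 b) b)

def P0 (x1 x2 : ℝ) : Prop := 0 < v64 x1 x2 ∧ 0 < v23 x1 x2 ∧ 0 < v56 x1 x2 ∧ 0 < v67 x1 x2 ∧ 0 < v79 x1 x2 ∧ 0 < v74 x1 x2 ∧ 0 < v93 x1 x2 ∧ 0 < v104 x1 x2 ∧ 0 < v106 x1 x2 ∧ 0 < v38 x1 x2 ∧ 0 < v163 x1 x2 ∧ (0 < v20 x1 x2 ∨ 0 < v187 x1 x2)

theorem l0_sound (h : In b E x1 x2) (e : l0 b = 0) : P0 x1 x2 := by
  have e1 : g0 b = true := by
    rcases e2 : g0 b with _ | _
    · unfold l0 at e; rw [e2, cond_false] at e; exact absurd e (pickb_ne _ _ _)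
    · rfl
  exact ⟨pos_sound hS (h64 h) (Bool.and_eq_true_iff.mp e1).1, ⟨pos_sound hS (h23 h) (Bool.and_eq_true_iff.mp (Bool.and_eq_true_iff.mp e1).2).1, ⟨pos_sound hS (h56 h) (Bool.and_eq_true_iff.mp (Bool.and_eq_true_iff.mp (Bool.and_eq_true_iff.mp e1).2).2).1, ⟨pos_sound hS (h67 h) (Bool.and_eq_true_iff.mp (Bool.and_eq_true_iff.mp (Bool.and_eq_true_iff.mp (Bool.and_eq_true_iff.mp e1).2).2).2).1, ⟨pos_sound hS (h79 h) (Bool.and_eq_true_iff.mp (Bool.and_eq_true_iff.mp (Bool.and_eq_true_iff.mp (Bool.and_eq_true_iff.mp (Bool.and_eq_true_iff.mp e1).2).2).2).2).1, ⟨pos_sound hS (h74 h) (Bool.and_eq_true_iff.mp (Bool.and_eq_true_iff.mp (Bool.and_eq_true_iff.mp (Bool.and_eq_true_iff.mp (Bool.and_eq_true_iff.mp (Bool.and_eq_true_iff.mp e1).2).2).2).2).2).1, ⟨pos_sound hS (h93 h) (Bool.and_eq_true_iff.mp (Bool.and_eq_true_iff.mp (Bool.and_eq_true_iff.mp (Bool.and_eq_true_iff.mp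 (Bool.and_eq_true_iff.mp (Bool.and_eq_true_iff.mp (Bool.and_eq_true_iff.mp e1).2).2).2).2).2).2).1, ⟨pos_sound hS (h104 h) (Bool.and_eq_true_iff.mp (Bool.and_eq_true_iff.mp (Bool.and_eq_true_iff.mp (Bool.and_eq_true_iff.mp (Bool.and_eq_true_iff.mp (Bool.and_eq_true_iff.mp (Bool.and_eq_true_iff.mp (Bool.and_eq_true_iff.mp e1).2).2).2).2).2).2).2).1, ⟨pos_sound hS (h106 h) (Bool.and_eq_true_iff.mp (Bool.and_eq_true_iff.mp (Bool.and_eq_true_iff.mp (Bool.and_eq_true_iff.mp (Bool.and_eq_true_iff.mp (Bool.and_eq_true_iff.mp (Bool.and_eq_true_iff.mp (Bool.and_eq_true_iff.mp (Bool.and_eq_true_iff.mp e1).2).2).2).2).2).2).2).2).1, ⟨pos_sound hS (h38 h) (Bool.and_eq_true_iff.mp (Bool.and_eq_true_iff.mp (Bool.and_eq_true_iff.mp (Bool.and_eq_true_iff.mp (Bool.and_eq_true_iff.mp (Bool.and_eq_true_iff.mp (Bool.and_eq_true_iff.mp (Bool.and_eq_true_iff.mp (Bool.and_eq_true_iff.mp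 (Bool.and_eq_true_iff.mp e1).2).2).2).2).2).2).2).2).2).1, ⟨pos_sound hS (h163 h) (Bool.and_eq_true_iff.mp (Bool.and_eq_true_iff.mp (Bool.and_eq_true_iff.mp (Bool.and_eq_true_iff.mp (Bool.and_eq_true_iff.mp (Bool.and_eq_true_iff.mp (Bool.and_eq_true_iff.mp (Bool.and_eq_true_iff.mp (Bool.and_eq_true_iff.mp (Bool.and_eq_true_iff.mp (Bool.and_eq_true_iff.mp e1).2).2).2).2).2).2).2).2).2).2).1, ((Bool.or_eq_true_iff.mp (Bool.and_eq_true_iff.mp (Bool.and_eq_true_iff.mp (Bool.and_eq_true_iff.mp (Bool.and_eq_true_iff.mp (Bool.and_eq_true_iff.mp (Bool.and_eq_true_iff.mp (Bool.and_eq_true_iff.mp (Bool.and_eq_true_iff.mp (Bool.and_eq_true_iff.mp (Bool.and_eq_true_iff.mp (Bool.and_eq_true_iff.mp e1).2).2).2).2).2).2).2).2).2).2).2).imp (fun a => pos_sound hS (h20 h) a) (fun a => pos_sound hS (h187 h) a))⟩⟩⟩⟩⟩⟩⟩⟩⟩⟩⟩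

def g1 (b : Bx) : Bool := or (pos (t188 b)) (or (pos (t191 b)) (or (pos (t194 b)) (or (pos (t196 b)) (or (pos (t198 b)) (or (pos (t199 b)) (or (pos (t200 b)) (or (pos (t201 b)) (pos (t203 b)))))))))

def l1 (b : Bx) : Nat := cond (g1 b) 0 (l0 b)

def P1 (x1 x2 : ℝ) : Prop := (0 < v188 x1 x2 ∨ 0 < v191 x1 x2 ∨ 0 < v194 x1 x2 ∨ 0 < v196 x1 x2 ∨ 0 < v198 x1 x2 ∨ 0 < v199 x1 x2 ∨ 0 < v200 x1 x2 ∨ 0 < v201 x1 x2 ∨ 0 < v203 x1 x2) ∨ (P0 x1 x2)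

theorem l1_sound (h : In b E x1 x2) (e : l1 b = 0) : P1 x1 x2 := by
  unfold l1 at e
  rcases e1 : g1 b with _ | _
  · rw [e1, cond_false] at e
    have z0 : l0 b = 0 := e
    exact Or.inr (l0_sound h z0)
  · exact Or.inl (((Bool.or_eq_true_iff.mp e1).imp (fun a => pos_sound hS (h188 h) a) (fun a => ((Bool.or_eq_true_iff.mp a).imp (fun a => pos_sound hS (h191 h) a) (fun a => ((Bool.or_eq_true_iff.mp a).imp (fun a => pos_sound hS (h194 h) a) (fun a => ((Bool.or_eq_true_iff.mp a).imp (fun a => pos_sound hS (h196 h) a) (fun a => ((Bool.or_eq_true_iff.mp a).imp (fun a => pos_sound hS (h198 h) a) (fun a => ((Bool.or_eq_true_iff.mp a).imp (fun a => pos_sound hS (h199 h) a) (fun a => ((Bool.or_eq_true_iff.mp a).imp (fun a => pos_sound hS (h200 h) a) (fun a => ((Bool.or_eq_true_iff.mp a).imp (fun a => pos_sound hS (h201 h) a) (fun a => pos_sound hS (h203 h) a)))))))))))))))))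

def f (b : Bx) : Nat := l1 b

/-- the statement -/
def Q (x1 x2 : ℝ) : Prop := P1 x1 x2

theorem f_sound (b : Bx) (hb : f b = 0) (x1 x2 : ℝ) (hm : Mem S b x1 x2) : Q x1 x2 := by
  obtain ⟨E, h⟩ := pt_of_mem hm
  have h : In b E x1 x2 := h
  unfold f at hb
  have e := hb
  have z1 : l1 b = 0 := e
  exact (l1_sound h z1)

/-- the box -/
def b0 : Bx := ⟨0, 268435456, 268435457, 0, 615093004, 615093005⟩

theorem chk_all {n : ℕ} {b : Bx} (h : chk f n b = true) (x1 x2 : ℝ) (hm : Mem S b x1 x2) : Q x1 x2 :=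
  chk_sound (fun b hb x1 x2 hm => f_sound b hb x1 x2 hm) n b h x1 x2 hm


end Pool.Agent.Strip051.LB.ChB03V1_mm_203
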